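import Pool.Agent.MP_f47e6d_an.Mg.Period

set_option autoImplicit false

namespace Pool.Agent.Results.MP_f47e6d_an.SmallCycles

/-- Every neighbourhood of the origin contains cycles of the Henon map `(x, y) ↦ (y, x + y^2)` that avoid the
origin, of arbitrarily large exact period. -/
theorem result (H : ℂ × ℂ → ℂ × ℂ) (hH : ∀ x y : ℂ, H (x, y) = (y, x + y ^ 2))
    (U : Set (ℂ × ℂ)) (hU : U ∈ nhds ((0, 0) : ℂ × ℂ)) (N : ℕ) :
    ∃ (p : ℂ × ℂ) (n : ℕ), N < n ∧ H^[n] p = p ∧ (∀ j, 0 < j → j < n → H^[j] p ≠ p) ∧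
      {q | ∃ k, k < n ∧ q = H^[k] p} ⊆ U \ {(0, 0)} := by
  obtain rfl : H = Pool.Agent.MP_f47e6d_an.hen := funext fun q => hH q.1 q.2
  obtain ⟨ε, hε, hball⟩ := Metric.mem_nhds_iff.1 hU
  obtain ⟨p, n, hn, hper, hmin, hall⟩ := Pool.Agent.MP_f47e6d_an.long_small_cycles hε N
  refine ⟨p, n, hn, hper, hmin, ?_⟩
  rintro _ ⟨k, -, rfl⟩
  exact ⟨hball (mem_ball_zero_iff.2 (hall k).1), (hall k).2⟩

end Pool.Agent.Results.MP_f47e6d_an.SmallCycles
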